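import Mathlib

namespace Pool.Agent.MP_026d7f_an.H77

open MeasureTheory ProbabilityTheory Real Set Module
open scoped RealInnerProductSpace

noncomputable abbrev g1 : Measure ℝ := gaussianReal 0 1

lemma pdf_eq (x : ℝ) : gaussianPDFReal 0 1 x = (√(2 * π))⁻¹ * exp (-x ^ 2 / 2) := by
  simp [gaussianPDFReal]

lemma sqrt_two_pi_bounds : 2 ≤ √(2 * π) ∧ √(2 * π) ≤ 4 := by
  have h1 := Real.pi_gt_three
  have h2 := Real.pi_lt_four
  constructor
  · apply Real.le_sqrt_of_sq_le; nlinarith
  · apply Real.sqrt_le_iff.2; constructor <;> nlinarith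

lemma g1_real (s : Set ℝ) : g1.real s = ∫ x in s, gaussianPDFReal 0 1 x := by
  rw [measureReal_def, gaussianReal_apply_eq_integral 0 one_ne_zero, ENNReal.toReal_ofReal]
  exact integral_nonneg fun x => gaussianPDFReal_nonneg _ _ _

/-- Mills ratio bound. -/
lemma tail_mills {s : ℝ} (hs : 0 < s) : g1.real (Ioi s) ≤ exp (-s ^ 2 / 2) / (2 * s) := by
  rw [g1_real]
  have hb := sqrt_two_pi_bounds.1
  have hint : IntegrableOn (fun x => exp (-s * x)) (Ioi s) :=
    integrableOn_exp_mul_Ioi (by linarith) s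
  have h1 : ∫ x in Ioi s, gaussianPDFReal 0 1 x
      ≤ ∫ x in Ioi s, (exp (s ^ 2 / 2) / 2) * exp (-s * x) := by
    apply setIntegral_mono_on (integrable_gaussianPDFReal 0 1).integrableOn (hint.const_mul _)
      measurableSet_Ioi
    intro x _
    rw [pdf_eq]
    have h2 : exp (-x ^ 2 / 2) ≤ exp (s ^ 2 / 2) * exp (-s * x) := by
      rw [← exp_add]; apply exp_le_exp.2; nlinarith [sq_nonneg (x - s)]
    have h3 : (√(2 * π))⁻¹ ≤ 1 / 2 := by
      rw [inv_eq_one_div]; exact one_div_le_one_div_of_le (by norm_num) hb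
    calc (√(2 * π))⁻¹ * exp (-x ^ 2 / 2) ≤ (1 / 2) * (exp (s ^ 2 / 2) * exp (-s * x)) := by
          apply mul_le_mul h3 h2 (exp_pos _).le (by norm_num)
      _ = _ := by ring
  rw [integral_const_mul, integral_exp_mul_Ioi (by linarith)] at h1
  refine h1.trans (le_of_eq ?_)
  have : exp (-s ^ 2 / 2) = exp (s ^ 2 / 2) * exp (-s * s) := by
    rw [← exp_add]; congr 1; ring
  rw [this]; field_simp

/-- lower bound for the mass of an interval -/
lemma box_lower (x : ℝ) {ρ : ℝ} (hρ : 0 ≤ ρ) :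
    ρ / 2 * exp (-(|x| + ρ) ^ 2 / 2) ≤ g1.real (Icc (x - ρ) (x + ρ)) := by
  rw [g1_real]
  have hb := sqrt_two_pi_bounds.2
  have hb0 := sqrt_two_pi_bounds.1
  have h1 : ∫ _ in Icc (x - ρ) (x + ρ), (1 / 4) * exp (-(|x| + ρ) ^ 2 / 2)
      ≤ ∫ y in Icc (x - ρ) (x + ρ), gaussianPDFReal 0 1 y := by
    apply setIntegral_mono_on (integrableOn_const (by simp))
      (integrable_gaussianPDFReal 0 1).integrableOn measurableSet_Icc
    intro y hy
    rw [pdf_eq]
    have h3 : (1 / 4 : ℝ) ≤ (√(2 * π))⁻¹ := by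
      rw [inv_eq_one_div]; exact one_div_le_one_div_of_le (by linarith) hb
    have h4 : |y| ≤ |x| + ρ := by
      rw [abs_le]; constructor
      · linarith [hy.1, neg_abs_le x]
      · linarith [hy.2, le_abs_self x]
    have h5 : y ^ 2 ≤ (|x| + ρ) ^ 2 := by
      rw [← sq_abs y]; exact pow_le_pow_left₀ (abs_nonneg _) h4 2
    apply mul_le_mul h3 (exp_le_exp.2 (by linarith)) (exp_pos _).le (by positivity)
  rw [setIntegral_const, Real.volume_real_Icc_of_le (by linarith), smul_eq_mul] at h1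
  refine le_trans (le_of_eq ?_) h1
  ring

lemma integral_exp_sq : ∫ x, exp (-(3 / 2) * x ^ 2) ∂g1 = 1 / 2 := by
  rw [integral_gaussianReal_eq_integral_smul one_ne_zero]
  have : ∀ x : ℝ, gaussianPDFReal 0 1 x • exp (-(3 / 2) * x ^ 2)
      = (√(2 * π))⁻¹ * exp (-2 * x ^ 2) := by
    intro x
    rw [pdf_eq, smul_eq_mul, mul_assoc, ← exp_add]; congr 2; ring
  simp_rw [this]
  rw [integral_const_mul, integral_gaussian]
  have h2 : √(2 * π) = 2 * √(π / 2) := by
    rw [show 2 * π = 2 ^ 2 * (π / 2) by ring, Real.sqrt_mul (by norm_num), Real.sqrt_sq (by norm_num)]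
  have h3 : 0 < √(π / 2) := Real.sqrt_pos.2 (by positivity)
  rw [h2]; field_simp

/-- lower tail of a chi-square variable -/
lemma chi_lower (κ : Type*) [Fintype κ] :
    (Measure.pi fun _ : κ => g1).real {x | ∑ l, x l ^ 2 < (Fintype.card κ : ℝ) / 4}
      ≤ (3 / 4) ^ Fintype.card κ := by
  set d := Fintype.card κ
  set μ := Measure.pi fun _ : κ => g1
  have hmeas : MeasurableSet {x : κ → ℝ | ∑ l, x l ^ 2 < (d : ℝ) / 4} :=
    measurableSet_lt (by fun_prop) measurable_const
  have hint : Integrable (fun x : κ → ℝ => ∏ l, exp (-(3 / 2) * x l ^ 2)) μ := by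
    apply Integrable.of_bound (C := 1) (Continuous.aestronglyMeasurable (by fun_prop))
    refine Filter.Eventually.of_forall fun x => ?_
    rw [Real.norm_eq_abs, abs_of_nonneg (Finset.prod_nonneg fun l _ => (exp_pos _).le)]
    apply Finset.prod_le_one (fun l _ => (exp_pos _).le)
    intro l _
    apply exp_le_one_iff.2; nlinarith [sq_nonneg (x l)]
  have h1 : μ.real {x | ∑ l, x l ^ 2 < (d : ℝ) / 4}
      ≤ ∫ x, exp (3 / 8 * d) * ∏ l, exp (-(3 / 2) * x l ^ 2) ∂μ := by
    rw [← integral_indicator_one hmeas]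
    apply integral_mono ((integrable_const _).indicator hmeas) (hint.const_mul _)
    intro x
    by_cases hx : x ∈ {x : κ → ℝ | ∑ l, x l ^ 2 < (d : ℝ) / 4}
    · simp only [indicator_of_mem hx]
      rw [← Real.exp_sum, ← exp_add, ← Finset.mul_sum]
      apply one_le_exp
      have : ∑ l, x l ^ 2 < (d : ℝ) / 4 := hx
      linarith
    · simp only [indicator_of_notMem hx]
      exact mul_nonneg (exp_pos _).le (Finset.prod_nonneg fun l _ => (exp_pos _).le)
  rw [integral_const_mul, integral_fintype_prod_eq_pow (f := fun y : ℝ => exp (-(3 / 2) * y ^ 2)),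
    integral_exp_sq] at h1
  refine h1.trans ?_
  have h2 : exp (3 / 8 * (d : ℝ)) = exp (3 / 8) ^ d := by rw [← exp_nat_mul]; congr 1; ring
  have h3 : exp (3 / 8) ≤ 3 / 2 := by
    have h4 := Real.exp_bound' (x := 3 / 8) (by norm_num) (by norm_num) (n := 3) (by norm_num)
    norm_num [Finset.sum_range_succ, Nat.factorial] at h4
    linarith
  rw [h2, ← mul_pow]
  apply pow_le_pow_left₀ (by positivity)
  linarith

variable {E : Type*} [NormedAddCommGroup E] [InnerProductSpace ℝ E] [FiniteDimensional ℝ E]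
  [MeasurableSpace E] [BorelSpace E]

lemma map_inner_unit {e : E} (he : ‖e‖ = 1) :
    (stdGaussian E).map (fun g => ⟪e, g⟫) = g1 := by
  have h := IsGaussian.map_eq_gaussianReal (μ := stdGaussian E) (innerSL ℝ e)
  rw [integral_strongDual_stdGaussian, variance_dual_stdGaussian, innerSL_apply_norm, he] at h
  simpa using h

lemma tail_inner (v : E) {s c : ℝ} (hs : 0 < s) (hc : ‖v‖ * s ≤ c) :
    (stdGaussian E).real {g | c < ⟪v, g⟫} ≤ exp (-s ^ 2 / 2) / (2 * s) := by
  by_cases hv : v = 0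
  · have : {g : E | c < ⟪v, g⟫} = ∅ := by
      ext g; simp only [hv, inner_zero_left, mem_ofPred_eq, mem_empty_iff_false, iff_false, not_lt]
      simpa [hv] using hc
    rw [this]; simp; positivity
  · have hn : 0 < ‖v‖ := norm_pos_iff.2 hv
    set e : E := (‖v‖⁻¹) • v
    have he : ‖e‖ = 1 := by simp [e, norm_smul, hn.ne']
    have hsub : {g : E | c < ⟪v, g⟫} ⊆ (fun g => ⟪e, g⟫) ⁻¹' Ioi s := by
      intro g hg
      simp only [mem_preimage, mem_Ioi, e, real_inner_smul_left]
      have : c < ⟪v, g⟫ := hg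
      rw [inv_mul_eq_div, lt_div_iff₀ hn]; linarith
    refine (measureReal_mono hsub).trans ?_
    rw [← map_measureReal_apply (by fun_prop) measurableSet_Ioi, map_inner_unit he]
    exact tail_mills hs

lemma tail_abs_inner (v : E) {s c : ℝ} (hs : 0 < s) (hc : ‖v‖ * s ≤ c) :
    (stdGaussian E).real {g | c < |⟪v, g⟫|} ≤ exp (-s ^ 2 / 2) / s := by
  have hsub : {g : E | c < |⟪v, g⟫|} ⊆ {g | c < ⟪v, g⟫} ∪ {g | c < ⟪-v, g⟫} := by
    intro g hg
    have : c < |⟪v, g⟫| := hg
    rcases lt_abs.1 this with h | h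
    · exact Or.inl h
    · right; simpa [inner_neg_left] using h
  refine (measureReal_mono hsub).trans ((measureReal_union_le _ _).trans ?_)
  have h1 := tail_inner v hs hc
  have h2 := tail_inner (-v) hs (by simpa using hc)
  have : exp (-s ^ 2 / 2) / s = exp (-s ^ 2 / 2) / (2 * s) + exp (-s ^ 2 / 2) / (2 * s) := by
    field_simp; ring
  linarith

lemma mp_basis {ι : Type*} [Fintype ι] (b : OrthonormalBasis ι ℝ E) :
    MeasurePreserving (fun x : ι → ℝ => ∑ i, x i • b i) (Measure.pi fun _ => g1) (stdGaussian E) :=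
  ⟨Finset.measurable_sum _ (by fun_prop), (stdGaussian_eq_map_pi_orthonormalBasis b).symm⟩

omit [MeasurableSpace E] [BorelSpace E] in
lemma exists_basis_ext {κ : Type*} [Fintype κ] {e : κ → E} (he : Orthonormal ℝ e) :
    ∃ b : OrthonormalBasis (κ ⊕ Fin (finrank ℝ E - Fintype.card κ)) ℝ E, ∀ l, b (.inl l) = e l := by
  have hle : Fintype.card κ ≤ finrank ℝ E := he.linearIndependent.fintype_card_le_finrank
  obtain ⟨b, hb⟩ := Orthonormal.exists_orthonormalBasis_extension_of_card_eq (𝕜 := ℝ) (E := E)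
    (ι := κ ⊕ Fin (finrank ℝ E - Fintype.card κ)) (by simp; omega)
    (v := Sum.elim e 0) (s := Set.range Sum.inl) (by
      constructor
      · rintro ⟨_, l, rfl⟩; exact he.1 l
      · rintro ⟨_, l, rfl⟩ ⟨_, l', rfl⟩ h
        exact he.2 (fun hl => h (by subst hl; rfl)))
  exact ⟨b, fun l => hb _ ⟨l, rfl⟩⟩

/-- independence of the coordinates along an orthonormal family from orthogonal directions -/
lemma row_indep {κ J : Type*} [Fintype κ] {e : κ → E} (he : Orthonormal ℝ e) (a : J → E)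
    (ha : ∀ j l, ⟪a j, e l⟫ = 0) {S : Set (κ → ℝ)} (hS : MeasurableSet S) {T : Set (J → ℝ)}
    (hT : MeasurableSet T) :
    (stdGaussian E).real {g | (fun l => ⟪e l, g⟫) ∈ S ∧ (fun j => ⟪a j, g⟫) ∈ T}
      = (Measure.pi fun _ : κ => g1).real S * (stdGaussian E).real {g | (fun j => ⟪a j, g⟫) ∈ T} := by
  classical
  obtain ⟨b, hb⟩ := exists_basis_ext he
  have hmp := (mp_basis b).comp
    (measurePreserving_sumPiEquivProdPi_symm (X := fun _ => ℝ) (fun _ => g1))
  set Φ := (fun x => ∑ i, x i • b i) ∘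
    (MeasurableEquiv.sumPiEquivProdPi (fun _ : κ ⊕ Fin (finrank ℝ E - Fintype.card κ) => ℝ)).symm
  have hΦ : ∀ x z, Φ (x, z) = ∑ l, x l • e l + ∑ i, z i • b (.inr i) := by
    intro x z
    simp [Φ, Fintype.sum_sum_type, hb, MeasurableEquiv.coe_sumPiEquivProdPi_symm]
  have h1 : ∀ x z l, ⟪e l, Φ (x, z)⟫ = x l := by
    intro x z l
    rw [hΦ, inner_add_right, he.inner_right_fintype, inner_sum]
    have : ∀ i, ⟪e l, z i • b (.inr i)⟫ = 0 := by
      intro i
      rw [real_inner_smul_right, ← hb, b.orthonormal.2 (by simp), mul_zero]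
    simp [this]
  have h2 : ∀ x z j, ⟪a j, Φ (x, z)⟫ = ⟪a j, ∑ i, z i • b (.inr i)⟫ := by
    intro x z j
    rw [hΦ, inner_add_right, inner_sum]
    simp [real_inner_smul_right, ha]
  set T' := {z : Fin (finrank ℝ E - Fintype.card κ) → ℝ | (fun j => ⟪a j, ∑ i, z i • b (.inr i)⟫) ∈ T}
  have hm1 : Measurable (fun g : E => fun l => ⟪e l, g⟫) := by fun_prop
  have hm2 : Measurable (fun g : E => fun j => ⟪a j, g⟫) := by fun_prop
  have e1 : Φ ⁻¹' {g | (fun l => ⟪e l, g⟫) ∈ S ∧ (fun j => ⟪a j, g⟫) ∈ T} = S ×ˢ T' := by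
    ext ⟨x, z⟩
    simp only [mem_preimage, mem_ofPred_eq, mem_prod, h1, h2, T']
  have e2 : Φ ⁻¹' {g | (fun j => ⟪a j, g⟫) ∈ T} = univ ×ˢ T' := by
    ext ⟨x, z⟩
    simp only [mem_preimage, mem_ofPred_eq, mem_prod, h2, T', mem_univ, true_and]
  have m1 : MeasurableSet {g : E | (fun l => ⟪e l, g⟫) ∈ S ∧ (fun j => ⟪a j, g⟫) ∈ T} :=
    (hm1 hS).inter (hm2 hT)
  have m2 : MeasurableSet {g : E | (fun j => ⟪a j, g⟫) ∈ T} := hm2 hT
  rw [← hmp.measureReal_preimage m1.nullMeasurableSet,
    ← hmp.measureReal_preimage m2.nullMeasurableSet, e1, e2, measureReal_prod_prod,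
    measureReal_prod_prod, probReal_univ, one_mul]

lemma coord_law {κ : Type*} [Fintype κ] {e : κ → E} (he : Orthonormal ℝ e)
    {S : Set (κ → ℝ)} (hS : MeasurableSet S) :
    (stdGaussian E).real {g | (fun l => ⟪e l, g⟫) ∈ S} = (Measure.pi fun _ : κ => g1).real S := by
  have := row_indep he (fun _ : Empty => (0 : E)) (by simp) hS (T := univ) MeasurableSet.univ
  simpa using this

/-- left multiplication of a family of vectors by a real matrix -/
noncomputable def rot {ι : Type*} [Fintype ι] (O : ι → ι → ℝ) (H : ι → E) : ι → E :=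
  fun i => ∑ k, O i k • H k

omit [FiniteDimensional ℝ E] [MeasurableSpace E] [BorelSpace E] in
lemma inner_rot {ι : Type*} [Fintype ι] (O : ι → ι → ℝ) (H : ι → E) (i : ι) (u : E) :
    ⟪rot O H i, u⟫ = ∑ k, O i k * ⟪H k, u⟫ := by
  simp [rot, sum_inner, real_inner_smul_left]

lemma mp_rot {ι : Type*} [Fintype ι] [DecidableEq ι] (O : ι → ι → ℝ)
    (hO : ∀ i j, ∑ k, O i k * O j k = if i = j then 1 else 0) :
    MeasurePreserving (rot (E := E) O) (Measure.pi fun _ => stdGaussian E)
      (Measure.pi fun _ => stdGaussian E) := by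
  let T : (ι → E) →L[ℝ] (ι → E) :=
    ContinuousLinearMap.pi fun i => ∑ k, O i k • ContinuousLinearMap.proj k
  have hT : (rot (E := E) O) = T := by
    ext H i; simp [T, rot]
  refine ⟨by rw [hT]; exact T.continuous.measurable, ?_⟩
  have : CompleteSpace E := FiniteDimensional.complete ℝ E
  apply Measure.ext_of_charFunDual
  ext L
  rw [hT, charFunDual_map, charFunDual_pi, charFunDual_pi]
  simp_rw [charFunDual_stdGaussian]
  rw [← Complex.exp_sum, ← Complex.exp_sum]
  congr 1
  set v : ι → E := fun i => (InnerProductSpace.toDual ℝ E).symm (L.comp (.single ℝ (fun _ => E) i))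
  have hv : ∀ i, ‖L.comp (.single ℝ (fun _ => E) i)‖ = ‖v i‖ := fun i => by simp [v]
  have hw : ∀ k, ‖(L.comp T).comp (.single ℝ (fun _ => E) k)‖ = ‖∑ i, O i k • v i‖ := by
    intro k
    rw [← (InnerProductSpace.toDual ℝ E).norm_map]
    congr 1
    ext x
    have h1 : T (Pi.single k x) = ∑ i, O i k • Pi.single i x := by
      ext j
      simp [T, Pi.single_apply, Finset.sum_apply]
    simp [h1, v]
  simp_rw [hv, hw]
  have key : ∑ k, ‖∑ i, O i k • v i‖ ^ 2 = ∑ i, ‖v i‖ ^ 2 := by
    simp_rw [← real_inner_self_eq_norm_sq, sum_inner, inner_sum, real_inner_smul_left,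
      real_inner_smul_right]
    rw [Finset.sum_comm]
    refine Finset.sum_congr rfl fun i _ => ?_
    rw [Finset.sum_comm]
    have : ∀ j, ∑ k, O i k * (O j k * ⟪v i, v j⟫) = (if i = j then 1 else 0) * ⟪v i, v j⟫ := by
      intro j; rw [← hO, Finset.sum_mul]; exact Finset.sum_congr rfl fun k _ => by ring
    simp [this]
  have key' : ∑ k, ((‖∑ i, O i k • v i‖ : ℂ)) ^ 2 = ∑ i, (‖v i‖ : ℂ) ^ 2 := by exact_mod_cast key
  simp_rw [neg_div]
  rw [Finset.sum_neg_distrib, Finset.sum_neg_distrib, ← Finset.sum_div, ← Finset.sum_div, key']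

/-- a symmetric orthogonal matrix whose column `i₀` is proportional to `w` -/
lemma exists_orth {ι : Type*} [Fintype ι] [DecidableEq ι] (w : ι → ℝ) (i₀ : ι) :
    ∃ O : ι → ι → ℝ, (∀ i j, O i j = O j i) ∧
      (∀ i j, ∑ k, O i k * O j k = if i = j then 1 else 0) ∧
      ∀ i, O i i₀ * √(∑ k, w k ^ 2) = w i := by
  set c := √(∑ k, w k ^ 2)
  have hc : c ^ 2 = ∑ k, w k ^ 2 := Real.sq_sqrt (Finset.sum_nonneg fun _ _ => sq_nonneg _)
  set v : ι → ℝ := fun i => (if i = i₀ then c else 0) - w i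
  set s := ∑ k, v k ^ 2
  have hs : s = 2 * c * v i₀ := by
    have : ∀ k, v k ^ 2 = (if k = i₀ then c ^ 2 - 2 * c * w k else 0) + w k ^ 2 := by
      intro k; simp only [v]; split_ifs <;> ring
    simp only [s, this, Finset.sum_add_distrib, Finset.sum_ite_eq', Finset.mem_univ, if_true, ← hc]
    simp only [v, if_true]; ring
  refine ⟨fun i j => (if i = j then 1 else 0) - 2 * v i * v j / s, ?_, ?_, ?_⟩
  · intro i j; simp only [eq_comm]; ring
  · intro i j
    by_cases h0 : s = 0
    · simp [h0]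
    · have : ∀ k, ((if i = k then 1 else 0) - 2 * v i * v k / s) *
          ((if j = k then 1 else 0) - 2 * v j * v k / s)
          = (if i = k then (if j = k then 1 else 0) - 2 * v j * v k / s else 0)
            - (if j = k then 2 * v i * v k / s else 0) + 4 * v i * v j / s ^ 2 * v k ^ 2 := by
        intro k; split_ifs <;> ring
      simp only [this, Finset.sum_add_distrib, Finset.sum_sub_distrib, Finset.sum_ite_eq,
        Finset.mem_univ, if_true, ← Finset.mul_sum]
      change _ - _ + _ * s = _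
      simp only [eq_comm (a := j)]
      field_simp; ring
  · intro i
    by_cases h0 : s = 0
    · have hv : v i = 0 := by
        have := (Finset.sum_eq_zero_iff_of_nonneg (fun k _ => sq_nonneg (v k))).1 h0 i (by simp)
        exact pow_eq_zero_iff (two_ne_zero) |>.1 this
      simp only [h0, div_zero, sub_zero]
      simp only [v] at hv
      split_ifs at hv ⊢ <;> linarith
    · have h1 : 2 * v i * v i₀ / s * c = v i := by
        rw [div_mul_eq_mul_div, div_eq_iff h0, hs]; ring
      rw [sub_mul, h1]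
      simp only [v]; split_ifs <;> ring

end Pool.Agent.MP_026d7f_an.H77
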